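import Pool.Agent.helper78.NLS.Spec

/-!
# Project nls: CTP, the Cauchy-Pompeiu formula
-/

set_option autoImplicit false

open Complex Metric Set Filter Topology MeasureTheory MPS
open Pool.Agent.helper98.ILF Pool.Agent.helper16.Multibrot

noncomputable section

namespace NLS

theorem CTP (hALG : ALG_stmt) (hCTS : CTS_stmt) (hCPF : BR.CPF_stmt) : CTP_stmt := by
  intro R h hh z
  have hpi : (Real.pi : ℂ) ≠ 0 := by exact_mod_cast Real.pi_ne_zero
  obtain ⟨-, -, -, -, -, -, -, -, -, hALG'⟩ := hALG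
  obtain ⟨hdb, -, -, hcs⟩ := hALG' R h hh
  obtain ⟨-, -, h3, -, -⟩ := hCTS.2 R h hh
  obtain ⟨-, -, -, h4, -⟩ := hCTS.2 R (db h) hdb
  rw [h3 z, h4 z]
  have hC1 : ContDiff ℝ 1 h := hh.sm.of_le (by exact_mod_cast le_top)
  obtain ⟨-, h5⟩ := hCPF h z hC1 hcs
  have h6 : ∫ w : ℂ, db h w / (z - w) = -∫ w : ℂ, BR.dbar h w / (w - z) := by
    rw [← integral_neg]
    refine integral_congr_ae (Eventually.of_forall fun w => ?_)
    show db h w / (z - w) = -(BR.dbar h w / (w - z))
    have e : BR.dbar h w = db h w := rfl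
    rw [e, ← neg_sub w z, div_neg]
  rw [h6, h5]
  field_simp


end NLS
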